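import Pool.Agent.N33.SA.Free
set_option autoImplicit false

/-!
All the elements `u_n` of the free alternative superalgebra lie in the verbal subsuperalgebra generated by `u_4`.

Here `u_n = ((a²)_(n-1), a, x) - (a_(n-1), a², x)`, `a` an even and `x` an odd generator, `b_(i+1) = [b_i, x]_s`.
Moreover `2 u_n = L(a_(n-4))` for all `n ≥ 5` with `n ≡ 0, 1 mod 4`, where `L(y)` is the linearization of `u_4` in `a`
at `y`, and `u_n = 0` for all other `n ≠ 4`.

Outline. Write `D = [·,x]_s`, `T = 6 (·,a,x)`, `u ∘ v` for the supersymmetric product and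
`A(i,j) = a_i ∘ T a_j`. As `D` and `T` are superderivations of `∘`, `6 u_n` is a combination of the `A(i,j)`.
The operators `D`, `T`, `E = [·,x²]`, `C = [·,a]` satisfy eight relations `ρ` (certificates checked by the kernel), and
expanding `(u W) ∘ (a V)` times words in these operators by the derivation rules turns the `ρ` into linear relations
between such products. Nine identities of degree 8 follow, for an arbitrary `u` (certificates checked by the kernel);
applied to `u = a_q` and combined with an induction they give `A(i+2,j) = - A(i,j+2)` and the rest.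
-/

namespace Pool.Agent.Results.MP_5f6665_al.Verbal
open Pool.Agent.N33.SA

theorem result (F : Type) [Field F] [CharZero F] (A X : Type) (a : A) (x : X) :
    (∀ n : ℕ, 1 ≤ n → SAlt.un F a x n ∈ SAlt.V F A X) ∧
    (∀ n : ℕ, 1 ≤ n → n ≤ 3 → SAlt.un F a x n = 0) ∧
    (∀ n : ℕ, 6 ≤ n → (n % 4 = 2 ∨ n % 4 = 3) → SAlt.un F a x n = 0) ∧
    (∀ n : ℕ, 5 ≤ n → n % 4 = 0 → (2 : ℤ) • SAlt.un F a x n = SAlt.L F a x false (SAlt.an F a x (n - 4))) ∧
    (∀ n : ℕ, 5 ≤ n → n % 4 = 1 → (2 : ℤ) • SAlt.un F a x n = SAlt.L F a x true (SAlt.an F a x (n - 4))) :=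
  ⟨fun n hn => main_verbal SAlt.salg F (SAlt.ev a) (SAlt.od x) (SAlt.gam_ev a) (SAlt.gam_od x) n hn,
    main_formulas (SAlt.salg (F := F) (A := A) (X := X)) (SAlt.ev a) (SAlt.od x) (SAlt.gam_ev a) (SAlt.gam_od x)⟩

end Pool.Agent.Results.MP_5f6665_al.Verbal
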